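import Pool.Agent.H958.LR.Fin4
import Pool.Agent.H603.LR.Law
import Pool.Agent.H958.LR.Dct
import Pool.Agent.H972.LR.Static
import Pool.Agent.H353.LR.Tail
import Pool.Agent.H553.LR.Fle
import Pool.Agent.H385.LR.Saw
import Pool.Agent.H955.LR.Perc
import Pool.Agent.H106.LR.Dyn
import Pool.Agent.H331.LR.Exi

/-!
# Fast-update limit of the critical value of the contact process on dynamical long-range
percolation (MP_7adf6c_pr, Q1)

Let `G` be a connected vertex-transitive graph of bounded degree, `p`, `v` functions of the distance
with `0 ≤ p ≤ 1`, `v > 0`, `∑ v p < ∞`, `∑ v⁻¹ < ∞` and `0 < q ≤ 1`. Then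
`λ_c^∞(q) ≤ liminf_{γ → ∞} λ_c(γ, q)`, where `λ_c^∞(q)` is the critical value of the static
long-range contact process with the kernel `(λ q p_e)` and `λ_c(γ, q)` is the critical value of the
contact process on the dynamical background. Together with the known inequality
`limsup_{γ → ∞} λ_c(γ, q) ≤ λ_c^∞(q)` this is `lim_{γ → ∞} λ_c(γ, q) = λ_c^∞(q)`.

Sketch. Let `λ < λ' < λ_c^∞(q)`. The static process with `λ'` dies out, hence its discretisations in
finite regions have a small probability to survive a fixed time. By the differential inequality of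
Duminil-Copin and Tassion some finite space-time set `S` has `φ(S) < 1/2` for slightly smaller
parameters, and this is stable under the change to windows of a small fixed length `δ`. For large
`γ` the windows of the dynamical model (attempts at rate at most `λ`) are dominated by an
independent family whose parameters converge, as `γ → ∞`, to at most those of the static model, with
an error `O(1 / (γ v_e))` that is summable. The criterion `ψ(S) < 1` gives extinction.
-/

namespace Pool.Agent.Results.MP_7adf6c_pr.FastUpdateLimit

open Filter Pool.Agent.H958.LR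

/-- `λ_c^∞(q) ≤ liminf_{γ → ∞} λ_c(γ, q)`. -/
theorem result (V : Type) (G : SimpleGraph V) (p v : ℕ → ℝ) (q : ℝ) (o : V)
    (hD : Data G p v q) :
    lamStatic G p q o ≤ liminf (fun gam : ℝ => lamDyn G p v gam q o) atTop := by
  have hL : S_LAW := Pool.Agent.H603.LR.s_law
  have hSt : S_STATIC := Pool.Agent.H972.LRS.s_static hL
  have hP : S_PERC := Pool.Agent.H955.LR.s_perc hL Pool.Agent.H385.LR.s_saw
  exact main Pool.Agent.H331.LR.s_exi
    (s_fin hL Pool.Agent.H662.LRDCT.s_dct hSt Pool.Agent.H353.LR.Tail.s_tail
      Pool.Agent.H553.LR.s_fle hP Pool.Agent.H106.LR.s_dyn) V G p v q o hD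

end Pool.Agent.Results.MP_7adf6c_pr.FastUpdateLimit
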